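import Pool.Agent.W8.ST.Stm

/-!
Part Iso1 of project ST: the deck transformations of the first example are isometries.
-/

open scoped ContDiff

namespace Pool.Agent.W569.ST

open Pool.Agent.W8.ST

theorem pd_aff (f : V 4 → V 4) (d c : Fin 4 → ℝ) (hf : ∀ y k, f y k = d k * y k + c k)
    (i k : Fin 4) (x : V 4) : pd i (fun y => f y k) x = if i = k then d k else 0 := by
  have h1 : (fun y : V 4 => f y k) = fun y : V 4 => d k * y k + c k := by
    funext y
    exact hf y k
  have h2 : HasFDerivAt (fun y : V 4 => d k * y k + c k)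
      (d k • (ContinuousLinearMap.proj (R := ℝ) (φ := fun _ : Fin 4 => ℝ) k)) x :=
    ((hasFDerivAt_apply k x).const_mul (d k)).add_const (c k)
  rw [pd, h1, h2.fderiv]
  by_cases hik : i = k
  · subst hik
    simp
  · simp [hik]

theorem gen (f : V 4 → V 4) (d c : Fin 4 → ℝ) (hf : ∀ y k, f y k = d k * y k + c k)
    (hd : ∀ k, d k * d k = 1) (h0 : d 0 = 1) (hc0 : c 0 = 0) :
    ContDiff ℝ ∞ f ∧ (∀ x ∈ strip 3, f x ∈ strip 3) ∧
      ∀ x i j, gex x i j =
        ∑ k, ∑ l, pd i (fun y => f y k) x * gex (f x) k l * pd j (fun y => f y l) x := by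
  have hx0 : ∀ x, f x 0 = x 0 := fun x => by rw [hf, h0, hc0]; ring
  refine ⟨?_, ?_, ?_⟩
  · rw [contDiff_pi]
    intro k
    have h1 : (fun y : V 4 => f y k) = fun y : V 4 => d k * y k + c k := by
      funext y
      exact hf y k
    rw [h1]
    exact (contDiff_const.mul (contDiff_apply ℝ ℝ k)).add contDiff_const
  · intro x hx
    have h1 : |x 0| ≤ 1 := hx
    show |f x 0| ≤ 1
    rw [hx0]
    exact h1
  · intro x i j
    have hg : gex (f x) = gex x := by
      unfold gex
      rw [hx0]
    rw [hg]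
    have h1 : ∀ k l, pd i (fun y => f y k) x * gex x k l * pd j (fun y => f y l) x =
        (if i = k then d k else 0) * gex x k l * (if j = l then d l else 0) := by
      intro k l
      rw [pd_aff f d c hf, pd_aff f d c hf]
    simp only [h1]
    have h2 : ∀ k, ∑ l, (if i = k then d k else 0) * gex x k l * (if j = l then d l else 0) =
        (if i = k then d k else 0) * gex x k j * d j := by
      intro k
      simp [mul_ite]
    simp only [h2]
    have h3 : ∑ k, (if i = k then d k else 0) * gex x k j * d j = d i * gex x i j * d j := by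
      simp [ite_mul]
    rw [h3]
    by_cases hij : i = j
    · subst hij
      linear_combination (-(gex x i i)) * hd i
    · have h4 : gex x i j = 0 := by
        unfold gex
        exact Matrix.diagonal_apply_ne _ hij
      rw [h4]
      ring

theorem Iso1_proof : Iso1 := by
  intro hD γ hγ
  obtain ⟨m, n, k, h⟩ := hD.1 γ hγ
  have hs : ((-1 : ℝ) ^ n) * ((-1 : ℝ) ^ n) = 1 := by
    rw [← mul_zpow]
    simp
  refine gen (γ : V 4 → V 4) ![1, (-1 : ℝ) ^ n, 1, (-1 : ℝ) ^ n]
    ![0, 2 * Real.pi * m, Real.pi * n, 2 * Real.pi * k] ?_ ?_ rfl rfl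
  · intro y l
    rw [h y]
    fin_cases l <;> simp [gam1]
  · intro l
    fin_cases l
    · simp
    · simpa using hs
    · simp
    · simpa using hs

theorem Iso2_proof : Iso2 := by
  intro hD γ hγ
  obtain ⟨m, n, k, h⟩ := hD.2.2.1 γ hγ
  have hs : ((-1 : ℝ) ^ n) * ((-1 : ℝ) ^ n) = 1 := by
    rw [← mul_zpow]
    simp
  refine gen (γ : V 4 → V 4) ![1, 1, (-1 : ℝ) ^ n, (-1 : ℝ) ^ n]
    ![0, Real.pi * n, 2 * Real.pi * m, 2 * Real.pi * k] ?_ ?_ rfl rfl
  · intro y l
    rw [h y]
    fin_cases l <;> simp [gam2]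
  · intro l
    fin_cases l
    · simp
    · simp
    · simpa using hs
    · simpa using hs

end Pool.Agent.W569.ST
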